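import Pool.Agent.W559.Wr.Stm

/-!
Project Wr: relabelling of the factors.
-/

set_option autoImplicit false

open TensorProduct

universe u

namespace Pool.Agent.W239.WrRel

open Pool.Agent.W559.Wr

theorem mulM_tprod {k M : Type u} [Field k] [Field M] [Algebra k M] {J : Type} [Fintype J]
    {K : J → Type u} [∀ j, Field (K j)] [∀ j, Algebra k (K j)] (e : ∀ j, K j →ₐ[k] M)
    (x : ∀ j, K j) : mulM e (PiTensorProduct.tprod k x) = ∏ j, e j (x j) := by
  unfold mulM
  rw [PiTensorProduct.lift.tprod, MultilinearMap.compLinearMap_apply,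
    MultilinearMap.mkPiAlgebra_apply]
  rfl

theorem ldis_comp {k M K : Type u} [Field k] [Field M] [Algebra k M] [Field K] [Algebra k K]
    {ι ι' : Type} [Fintype ι] [Fintype ι'] (f : ι ≃ ι') (e : ι' → K →ₐ[k] M) (h : LDis e) :
    LDis (fun i => e (f i)) := by
  unfold LDis at h ⊢
  have h1 : ∀ t, mulM (fun i => e (f i)) t =
      mulM e (PiTensorProduct.reindex k (fun _ : ι => K) f t) := by
    intro t
    have h2 : mulM (fun i => e (f i)) = (mulM e).comp
        (PiTensorProduct.reindex k (fun _ : ι => K) f).toLinearMap := by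
      apply PiTensorProduct.ext
      ext x
      simp only [LinearMap.compMultilinearMap_apply, LinearMap.comp_apply,
        LinearEquiv.coe_coe]
      rw [mulM_tprod, PiTensorProduct.reindex_tprod, mulM_tprod]
      exact Fintype.prod_equiv f _ _ (fun i => by rw [f.symm_apply_apply])
    rw [h2]
    rfl
  intro a b hab
  rw [h1, h1] at hab
  exact (PiTensorProduct.reindex k (fun _ : ι => K) f).injective (h hab)

theorem main : RelStm.{u} := by
  intro k _ ι ι' _ _ f P hQ K M _ _ _ _ e hL hsup hK
  have h1 := hQ K M (fun i => e (f i)) (ldis_comp f e hL) (by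
    rw [← hsup]
    exact f.iSup_comp (g := fun i => (e i).fieldRange)) hK
  have h2 : permGrp (fun i => e (f i)) P =
      permGrp e (P.map (f.permCongrHom : Equiv.Perm ι ≃* Equiv.Perm ι').toMonoidHom) := by
    ext σ
    constructor
    · rintro ⟨g, hg, h⟩
      refine ⟨f.permCongrHom g, ⟨g, hg, rfl⟩, fun i x => ?_⟩
      obtain ⟨i, rfl⟩ := f.surjective i
      have h3 : (f.permCongrHom g) (f i) = f (g i) := by
        simp [Equiv.permCongrHom]
      rw [h3]
      exact h i x
    · rintro ⟨g', ⟨g, hg, rfl⟩, h⟩
      refine ⟨g, hg, fun i x => ?_⟩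
      have h3 : (f.permCongrHom g) (f i) = f (g i) := by
        simp [Equiv.permCongrHom]
      have h4 := h (f i) x
      change σ (e (f i) x) = e ((f.permCongrHom g) (f i)) x at h4
      rw [h3] at h4
      exact h4
  rw [← h2]
  exact h1

end Pool.Agent.W239.WrRel
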